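import Mathlib

namespace Pool.H66.CylP4

variable {V : Type*}

/-- midpoints inside `D` -/
def Pin (R : V → V → Prop) (D : Finset V) : Prop :=
  ∀ u ∈ D, ∀ v ∈ D, (R u u ↔ R v v) → ¬ (R u v ↔ R u u) →
    ∃ g ∈ D, ¬ (R g g ↔ R u u) ∧ (R g u ↔ R g g) ∧ (R g v ↔ R g g) ∧
      ∀ y ∈ D, (R u y ↔ R v y) → (R g y ↔ R u y)

/-- induced path `a - b - c - d` -/
def P4 (R : V → V → Prop) (a b c d : V) : Prop :=
  R a b ∧ R b c ∧ R c d ∧ ¬ R a c ∧ ¬ R b d ∧ ¬ R a d

def Free (R : V → V → Prop) (D : Finset V) : Prop :=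
  ∀ a ∈ D, ∀ b ∈ D, ∀ c ∈ D, ∀ d ∈ D, ¬ P4 R a b c d

open Classical in
theorem Pin.filter {R : V → V → Prop} {D : Finset V} (h : Pin R D) {w : V} (hw : w ∈ D)
    (hs : ∀ x y, R x y → R y x) : Pin R (D.filter (fun x => R w x)) := by
  intro u hu v hv h1 h2
  rw [Finset.mem_filter] at hu hv
  obtain ⟨g, hg, k1, k2, k3, k4⟩ := h u hu.1 v hv.1 h1 h2
  have hgw : R g w := (k4 w hw ⟨fun _ => hs _ _ hv.2, fun _ => hs _ _ hu.2⟩).2 (hs _ _ hu.2)
  exact ⟨g, Finset.mem_filter.2 ⟨hg, hs _ _ hgw⟩, k1, k2, k3,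
    fun y hy => k4 y (Finset.mem_filter.1 hy).1⟩

open Classical in
theorem Pin.filter_not {R : V → V → Prop} {D : Finset V} (h : Pin R D) {w : V} (hw : w ∈ D)
    (hs : ∀ x y, R x y → R y x) : Pin R (D.filter (fun x => ¬ R w x)) := by
  intro u hu v hv h1 h2
  rw [Finset.mem_filter] at hu hv
  obtain ⟨g, hg, k1, k2, k3, k4⟩ := h u hu.1 v hv.1 h1 h2
  have hgw : ¬ R g w := fun h0 =>
    hu.2 (hs _ _ ((k4 w hw ⟨fun h => (hu.2 (hs _ _ h)).elim, fun h => (hv.2 (hs _ _ h)).elim⟩).1 h0))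
  exact ⟨g, Finset.mem_filter.2 ⟨hg, fun h => hgw (hs _ _ h)⟩, k1, k2, k3,
    fun y hy => k4 y (Finset.mem_filter.1 hy).1⟩

theorem Free.mono {R : V → V → Prop} {D E : Finset V} (h : Free R D) (hE : E ⊆ D) : Free R E :=
  fun a ha b hb c hc d hd => h a (hE ha) b (hE hb) c (hE hc) d (hE hd)

open Classical in
/-- LEMMA R: a nonempty `P4`-free set with inner midpoints has a uniform vertex. -/
theorem root {R : V → V → Prop} (hs : ∀ x y, R x y → R y x) :
    ∀ (n : ℕ) (D : Finset V), D.card ≤ n → D.Nonempty → Pin R D → Free R D →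
      (∃ r ∈ D, ∀ y ∈ D, ¬ R r y) ∨ (∃ r ∈ D, ∀ y ∈ D, R r y) := by
  intro n
  induction n with
  | zero =>
    intro D hn hne
    exact absurd (Finset.card_pos.2 hne) (by omega)
  | succ n ih =>
    intro D hn hne hP hF
    by_cases h1 : ∃ p ∈ D, R p p
    · have hne' : (D.filter (fun p => R p p)).Nonempty := by
        obtain ⟨p, hp, hpp⟩ := h1
        exact ⟨p, Finset.mem_filter.2 ⟨hp, hpp⟩⟩
      obtain ⟨p, hp, hmax⟩ := Finset.exists_max_image (D.filter (fun p => R p p))
        (fun p => (D.filter (fun x => R p x)).card) hne'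
      rw [Finset.mem_filter] at hp
      obtain ⟨hpD, hpp⟩ := hp
      by_cases hall : ∀ y ∈ D, R p y
      · exact Or.inr ⟨p, hpD, hall⟩
      · push Not at hall
        obtain ⟨y0, hy0, hpy0⟩ := hall
        have hlt : (D.filter (fun x => ¬ R p x)).card < D.card :=
          Finset.card_lt_card (Finset.filter_ssubset.2 ⟨p, hpD, by simpa using hpp⟩)
        rcases ih (D.filter (fun x => ¬ R p x)) (by omega)
          ⟨y0, Finset.mem_filter.2 ⟨hy0, hpy0⟩⟩ (hP.filter_not hpD hs)
          (hF.mono (Finset.filter_subset _ _)) with ⟨q, hq, hq0⟩ | ⟨q, hq, hq1⟩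
        · rw [Finset.mem_filter] at hq
          obtain ⟨hqD, hpq⟩ := hq
          have hqq : ¬ R q q := hq0 q (Finset.mem_filter.2 ⟨hqD, hpq⟩)
          have hsub : ∀ y ∈ D, R q y → R p y := by
            intro y hy hqy
            by_contra hc
            exact hq0 y (Finset.mem_filter.2 ⟨hy, hc⟩) hqy
          by_cases hne2 : (D.filter (fun x => R q x)).Nonempty
          · have hlt2 : (D.filter (fun x => R q x)).card < D.card :=
              Finset.card_lt_card (Finset.filter_ssubset.2 ⟨q, hqD, hqq⟩)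
            rcases ih (D.filter (fun x => R q x)) (by omega) hne2 (hP.filter hqD hs)
              (hF.mono (Finset.filter_subset _ _)) with ⟨r, hr, hr0⟩ | ⟨r, hr, hr1⟩
            · exfalso
              have hr' := Finset.mem_filter.1 hr
              have hrr : ¬ R r r := hr0 r hr
              obtain ⟨g, hg, k1, k2, k3, -⟩ := hP q hqD r hr'.1
                ⟨fun h => (hqq h).elim, fun h => (hrr h).elim⟩
                (fun h => hqq (h.1 hr'.2))
              have hgg : R g g := by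
                by_contra hc
                exact k1 ⟨fun h => (hc h).elim, fun h => (hqq h).elim⟩
              exact hr0 g (Finset.mem_filter.2 ⟨hg, hs _ _ (k2.2 hgg)⟩) (hs _ _ (k3.2 hgg))
            · exfalso
              have hr' := Finset.mem_filter.1 hr
              have hrr : R r r := hr1 r hr
              have hle := hmax r (Finset.mem_filter.2 ⟨hr'.1, hrr⟩)
              have hex : ∃ s ∈ D, R p s ∧ ¬ R r s := by
                by_contra hc
                push Not at hc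
                have : (D.filter (fun x => R p x)) ⊂ (D.filter (fun x => R r x)) := by
                  refine (Finset.ssubset_iff_of_subset ?_).2 ⟨q, ?_, ?_⟩
                  · intro x hx
                    rw [Finset.mem_filter] at hx ⊢
                    exact ⟨hx.1, hc x hx.1 hx.2⟩
                  · exact Finset.mem_filter.2 ⟨hqD, hs _ _ hr'.2⟩
                  · intro hx
                    exact hpq (Finset.mem_filter.1 hx).2
                have := Finset.card_lt_card this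
                omega
              obtain ⟨s, hsD, hps, hrs⟩ := hex
              refine hF s hsD p hpD r hr'.1 q hqD ⟨hs _ _ hps, hsub r hr'.1 hr'.2, hs _ _ hr'.2,
                fun h => hrs (hs _ _ h), hpq, fun h => ?_⟩
              exact hrs (hr1 s (Finset.mem_filter.2 ⟨hsD, hs _ _ h⟩))
          · refine Or.inl ⟨q, hqD, fun y hy hqy => hne2 ⟨y, Finset.mem_filter.2 ⟨hy, hqy⟩⟩⟩
        · exfalso
          have hq' := Finset.mem_filter.1 hq
          have hqq : R q q := hq1 q hq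
          obtain ⟨g, hg, k1, k2, k3, -⟩ := hP p hpD q hq'.1 ⟨fun _ => hqq, fun _ => hpp⟩
            (fun h => hq'.2 (h.2 hpp))
          have hgg : ¬ R g g := fun h => k1 ⟨fun _ => hpp, fun _ => h⟩
          have hgp : ¬ R g p := fun h => hgg (k2.1 h)
          have hgq : ¬ R g q := fun h => hgg (k3.1 h)
          exact hgq (hs _ _ (hq1 g (Finset.mem_filter.2 ⟨hg, fun h => hgp (hs _ _ h)⟩)))
    · push Not at h1
      obtain ⟨x, hx⟩ := hne
      refine Or.inl ⟨x, hx, fun y hy hxy => ?_⟩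
      obtain ⟨g, hg, k1, -⟩ := hP x hx y hy
        ⟨fun h => (h1 x hx h).elim, fun h => (h1 y hy h).elim⟩ (fun h => h1 x hx (h.1 hxy))
      exact k1 ⟨fun h => (h1 g hg h).elim, fun h => (h1 x hx h).elim⟩

/-- at distance 1 or 2 inside `D` -/
def B (R : V → V → Prop) (D : Finset V) (x v : V) : Prop := R x v ∨ ∃ u ∈ D, R x u ∧ R u v

theorem B.step {R : V → V → Prop} {D : Finset V} (hF : Free R D) {x v t : V} (hx : x ∈ D)
    (hv : v ∈ D) (ht : t ∈ D) (h : B R D x v) (hvt : R v t) : B R D x t := by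
  rcases h with h | ⟨u, hu, h1, h2⟩
  · exact Or.inr ⟨v, hv, h, hvt⟩
  · by_cases hxv : R x v
    · exact Or.inr ⟨v, hv, hxv, hvt⟩
    · by_cases hut : R u t
      · exact Or.inr ⟨u, hu, h1, hut⟩
      · by_cases hxt : R x t
        · exact Or.inl hxt
        · exact (hF x hx u hu v hv t ht ⟨h1, h2, hvt, hxv, hut, hxt⟩).elim

theorem B.symm {R : V → V → Prop} {D : Finset V} (hs : ∀ x y, R x y → R y x) {x v : V}
    (h : B R D x v) : B R D v x := by
  rcases h with h | ⟨u, hu, h1, h2⟩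
  · exact Or.inl (hs _ _ h)
  · exact Or.inr ⟨u, hu, hs _ _ h2, hs _ _ h1⟩

open Classical in
/-- component version -/
theorem comp {R : V → V → Prop} (hs : ∀ x y, R x y → R y x) {D : Finset V}
    (hP : Pin R D) (hF : Free R D) {x y : V} (hx : x ∈ D) (hy : y ∈ D) (hxy : R x y) :
    ∃ f ∈ D, R f f ∧ R f x ∧ ∀ u ∈ D, R f u → ∀ v ∈ D, R u v → R f v := by
  have hBx : ∀ v ∈ D, ∀ t ∈ D, B R D x v → R v t → B R D x t :=
    fun v hv t ht h1 h2 => B.step hF hx hv ht h1 h2
  have hxx : B R D x x := Or.inr ⟨y, hy, hxy, hs _ _ hxy⟩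
  have hP' : Pin R (D.filter (B R D x)) := by
    intro u hu v hv h1 h2
    rw [Finset.mem_filter] at hu hv
    obtain ⟨g, hg, k1, k2, k3, k4⟩ := hP u hu.1 v hv.1 h1 h2
    refine ⟨g, Finset.mem_filter.2 ⟨hg, ?_⟩, k1, k2, k3, fun y hy => k4 y (Finset.mem_filter.1 hy).1⟩
    by_cases hgg : R g g
    · exact hBx u hu.1 g hg hu.2 (hs _ _ (k2.2 hgg))
    · have huu : R u u := by
        by_contra hc
        exact k1 ⟨fun h => (hgg h).elim, fun h => (hc h).elim⟩
      have huv : ¬ R u v := fun h => h2 ⟨fun _ => huu, fun _ => h⟩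
      -- common neighbour
      have hux : B R D u x := B.symm hs hu.2
      have huv' : B R D u v := by
        rcases hv.2 with h | ⟨s, hs', h3, h4⟩
        · exact B.step hF hu.1 hx hv.1 hux h
        · exact B.step hF hu.1 hs' hv.1 (B.step hF hu.1 hx hs' hux h3) h4
      rcases huv' with h | ⟨s, hsD, h3, h4⟩
      · exact (huv h).elim
      · have hsB : B R D x s := hBx u hu.1 s hsD hu.2 h3
        have hgs : R g s := (k4 s hsD ⟨fun _ => hs _ _ h4, fun _ => h3⟩).2 h3
        exact hBx s hsD g hg hsB (hs _ _ hgs)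
  rcases root hs _ (D.filter (B R D x)) le_rfl ⟨x, Finset.mem_filter.2 ⟨hx, hxx⟩⟩ hP'
    (hF.mono (Finset.filter_subset _ _)) with ⟨r, hr, hr0⟩ | ⟨r, hr, hr1⟩
  · exfalso
    rcases (Finset.mem_filter.1 hr).2 with h | ⟨u, hu, h1, h2⟩
    · exact hr0 x (Finset.mem_filter.2 ⟨hx, hxx⟩) (hs _ _ h)
    · exact hr0 u (Finset.mem_filter.2 ⟨hu, Or.inl h1⟩) (hs _ _ h2)
  · have hr' := Finset.mem_filter.1 hr
    refine ⟨r, hr'.1, hr1 r hr, hr1 x (Finset.mem_filter.2 ⟨hx, hxx⟩), ?_⟩
    intro u hu hru v hv huv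
    have hu' : B R D x u := hBx r hr'.1 u hu hr'.2 hru
    exact hr1 v (Finset.mem_filter.2 ⟨hv, hBx u hu v hv hu' huv⟩)

end Pool.H66.CylP4
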