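import Pool.Agent.H66.CylP4

namespace Pool.H66.CylP4

variable {V : Type*}

open Classical in
/-- The main argument in a minimal cylinder `C` (hypotheses `minF`, `minN`), when no vertex of `C`
is full. -/
theorem core1 {R : V → V → Prop} (hs : ∀ x y, R x y → R y x) {C : Finset V} (hP : Pin R C)
    (h4 : ∃ a ∈ C, ∃ b ∈ C, ∃ c ∈ C, ∃ d ∈ C, P4 R a b c d)
    (minF : ∀ w ∈ C, ∀ a ∈ C, ∀ b ∈ C, ∀ c ∈ C, ∀ d ∈ C, P4 R a b c d →
      R w a → R w b → R w c → R w d → ∀ y ∈ C, R w y)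
    (minN : ∀ w ∈ C, ∀ a ∈ C, ∀ b ∈ C, ∀ c ∈ C, ∀ d ∈ C, P4 R a b c d →
      ¬ R w a → ¬ R w b → ¬ R w c → ¬ R w d → ∀ y ∈ C, ¬ R w y)
    (nofull : ∀ f ∈ C, ∃ y ∈ C, ¬ R f y) :
    ∃ a ∈ C, ∃ b ∈ C, ∃ c ∈ C, ∃ d ∈ C, P4 R a b c d ∧ ¬ R a a ∧ R b b ∧ R c c ∧ ¬ R d d ∧
      ∀ g ∈ C, ¬ (R g a ∧ R g b ∧ ¬ R g c ∧ ¬ R g d) ∧ ¬ (¬ R g a ∧ ¬ R g b ∧ R g c ∧ R g d) ∧
        ¬ (R g a ∧ ¬ R g b ∧ R g c ∧ ¬ R g d) ∧ ¬ (¬ R g a ∧ R g b ∧ ¬ R g c ∧ R g d) := by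
  have freeN : ∀ w ∈ C, Free R (C.filter (fun x => R w x)) := by
    intro w hw a ha b hb c hc d hd hp
    rw [Finset.mem_filter] at ha hb hc hd
    obtain ⟨y, hy, hwy⟩ := nofull w hw
    exact hwy (minF w hw a ha.1 b hb.1 c hc.1 d hd.1 hp ha.2 hb.2 hc.2 hd.2 y hy)
  have freeM : ∀ w ∈ C, (∃ y ∈ C, R w y) → Free R (C.filter (fun x => ¬ R w x)) := by
    intro w hw hex a ha b hb c hc d hd hp
    rw [Finset.mem_filter] at ha hb hc hd
    obtain ⟨y, hy, hwy⟩ := hex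
    exact (minN w hw a ha.1 b hb.1 c hc.1 d hd.1 hp ha.2 hb.2 hc.2 hd.2 y hy) hwy
  -- (1)
  have plus : ∀ w ∈ C, ¬ R w w → (∃ y ∈ C, R w y) →
      ∃ w' ∈ C, R w' w' ∧ R w' w ∧ ∀ y ∈ C, R w y → R w' y := by
    intro w hw hww ⟨y0, hy0, hwy0⟩
    rcases root hs _ (C.filter (fun x => R w x)) le_rfl ⟨y0, Finset.mem_filter.2 ⟨hy0, hwy0⟩⟩
      (hP.filter hw hs) (freeN w hw) with ⟨r, hr, hr0⟩ | ⟨r, hr, hr1⟩
    · exfalso
      have hr' := Finset.mem_filter.1 hr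
      have hrr : ¬ R r r := hr0 r hr
      obtain ⟨g, hg, k1, k2, k3, -⟩ := hP w hw r hr'.1
        ⟨fun h => (hww h).elim, fun h => (hrr h).elim⟩ (fun h => hww (h.1 hr'.2))
      have hgg : R g g := by
        by_contra hc
        exact k1 ⟨fun h => (hc h).elim, fun h => (hww h).elim⟩
      exact hr0 g (Finset.mem_filter.2 ⟨hg, hs _ _ (k2.2 hgg)⟩) (hs _ _ (k3.2 hgg))
    · have hr' := Finset.mem_filter.1 hr
      exact ⟨r, hr'.1, hr1 r hr, hs _ _ hr'.2, fun y hy h => hr1 y (Finset.mem_filter.2 ⟨hy, h⟩)⟩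
  -- (2)
  have two : ∀ b ∈ C, ∀ c ∈ C, R b b → R c c → R b c → (∃ x ∈ C, R b x ∧ ¬ R c x) →
      ∃ a ∈ C, R b a ∧ ¬ R c a ∧ ∀ y ∈ C, R b y → ¬ R c y → ¬ R a y := by
    intro b hb c hc hbb hcc hbc ⟨x0, hx0, hbx0, hcx0⟩
    have hPin : Pin R ((C.filter (fun x => R b x)).filter (fun x => ¬ R c x)) :=
      (hP.filter hb hs).filter_not (Finset.mem_filter.2 ⟨hc, hbc⟩) hs
    have hFree : Free R ((C.filter (fun x => R b x)).filter (fun x => ¬ R c x)) :=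
      (freeN b hb).mono (Finset.filter_subset _ _)
    rcases root hs _ _ le_rfl ⟨x0, Finset.mem_filter.2 ⟨Finset.mem_filter.2 ⟨hx0, hbx0⟩, hcx0⟩⟩
      hPin hFree with ⟨r, hr, hr0⟩ | ⟨r, hr, hr1⟩
    · have hr' := Finset.mem_filter.1 hr
      have hr'' := Finset.mem_filter.1 hr'.1
      exact ⟨r, hr''.1, hr''.2, hr'.2, fun y hy h1 h2 =>
        hr0 y (Finset.mem_filter.2 ⟨Finset.mem_filter.2 ⟨hy, h1⟩, h2⟩)⟩
    · exfalso
      have hr' := Finset.mem_filter.1 hr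
      have hr'' := Finset.mem_filter.1 hr'.1
      have hrr : R r r := hr1 r hr
      have hrc : ¬ R r c := fun h => hr'.2 (hs _ _ h)
      obtain ⟨g, hg, k1, k2, k3, k4⟩ := hP r hr''.1 c hc ⟨fun _ => hcc, fun _ => hrr⟩
        (fun h => hrc (h.2 hrr))
      have hgg : ¬ R g g := fun h => k1 ⟨fun _ => hrr, fun _ => h⟩
      have hgr : ¬ R g r := fun h => hgg (k2.1 h)
      have hgc : ¬ R g c := fun h => hgg (k3.1 h)
      have hgb : R g b := (k4 b hb ⟨fun _ => hs _ _ hbc, fun _ => hs _ _ hr''.2⟩).2 (hs _ _ hr''.2)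
      exact hgr (hs _ _ (hr1 g (Finset.mem_filter.2
        ⟨Finset.mem_filter.2 ⟨hg, hs _ _ hgb⟩, fun h => hgc (hs _ _ h)⟩)))
  -- maximal `b`
  obtain ⟨p0, hp0, p1, hp1, p2, hp2, p3, hp3, hp⟩ := h4
  obtain ⟨b, hb, hmax⟩ := Finset.exists_max_image C
    (fun p => (C.filter (fun x => R p x)).card) ⟨p0, hp0⟩
  have hmax' : ∀ x ∈ C, (∀ y ∈ C, R b y → R x y) → ∀ y ∈ C, R x y → R b y := by
    intro x hx hsub y hy hxy
    by_contra hc
    have hlt : (C.filter (fun z => R b z)) ⊂ (C.filter (fun z => R x z)) := by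
      refine (Finset.ssubset_iff_of_subset ?_).2 ⟨y, Finset.mem_filter.2 ⟨hy, hxy⟩, ?_⟩
      · intro z hz
        rw [Finset.mem_filter] at hz ⊢
        exact ⟨hz.1, hsub z hz.1 hz.2⟩
      · intro hz
        exact hc (Finset.mem_filter.1 hz).2
    have h1 := Finset.card_lt_card hlt
    have h2 := hmax x hx
    omega
  have hbne : ∃ y ∈ C, R b y := by
    by_contra hc
    push Not at hc
    have h1 := hmax p0 hp0
    have h2 : (C.filter (fun x => R b x)) = ∅ := by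
      rw [Finset.filter_eq_empty_iff]
      intro x hx
      exact hc x hx
    have h3 : 0 < (C.filter (fun x => R p0 x)).card :=
      Finset.card_pos.2 ⟨p1, Finset.mem_filter.2 ⟨hp1, hp.1⟩⟩
    have h1' : (C.filter (fun x => R p0 x)).card ≤ (C.filter (fun x => R b x)).card := h1
    rw [h2, Finset.card_empty] at h1'
    omega
  have hbb : R b b := by
    by_contra hc
    obtain ⟨b', hb', -, h2, h3⟩ := plus b hb hc hbne
    exact hc (hmax' b' hb' h3 b hb h2)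
  -- an edge leaving `N(b)`
  have hcross : ∃ y ∈ C, ∃ z ∈ C, R b y ∧ ¬ R b z ∧ R y z := by
    obtain ⟨q1, q2, q3, q4, q5, q6⟩ := hp
    by_cases e0 : R b p0
    · by_cases e1 : R b p1
      · by_cases e2 : R b p2
        · by_cases e3 : R b p3
          · exact (freeN b hb p0 (Finset.mem_filter.2 ⟨hp0, e0⟩) p1 (Finset.mem_filter.2 ⟨hp1, e1⟩)
              p2 (Finset.mem_filter.2 ⟨hp2, e2⟩) p3 (Finset.mem_filter.2 ⟨hp3, e3⟩)
              ⟨q1, q2, q3, q4, q5, q6⟩).elim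
          · exact ⟨p2, hp2, p3, hp3, e2, e3, q3⟩
        · exact ⟨p1, hp1, p2, hp2, e1, e2, q2⟩
      · exact ⟨p0, hp0, p1, hp1, e0, e1, q1⟩
    · by_cases e1 : R b p1
      · exact ⟨p1, hp1, p0, hp0, e1, e0, hs _ _ q1⟩
      · by_cases e2 : R b p2
        · exact ⟨p2, hp2, p1, hp1, e2, e1, hs _ _ q2⟩
        · by_cases e3 : R b p3
          · exact ⟨p3, hp3, p2, hp2, e3, e2, hs _ _ q3⟩
          · exact (freeM b hb hbne p0 (Finset.mem_filter.2 ⟨hp0, e0⟩)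
              p1 (Finset.mem_filter.2 ⟨hp1, e1⟩)
              p2 (Finset.mem_filter.2 ⟨hp2, e2⟩) p3 (Finset.mem_filter.2 ⟨hp3, e3⟩)
              ⟨q1, q2, q3, q4, q5, q6⟩).elim
  -- (3)
  have three : ∃ d ∈ C, ¬ R d d ∧ ¬ R b d ∧ (∃ y ∈ C, R d y) ∧ ∀ y ∈ C, R d y → R b y := by
    obtain ⟨y, hy, z, hz, hby, hbz, hyz⟩ := hcross
    have hc : ∃ c ∈ C, R c c ∧ R c b ∧ R c z := by
      by_cases hyy : R y y
      · exact ⟨y, hy, hyy, hs _ _ hby, hyz⟩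
      · obtain ⟨y', hy', h1, -, h3⟩ := plus y hy hyy ⟨z, hz, hyz⟩
        exact ⟨y', hy', h1, h3 b hb (hs _ _ hby), h3 z hz hyz⟩
    obtain ⟨c, hcC, hcc, hcb, hcz⟩ := hc
    obtain ⟨d, hd, hcd, hbd, hiso⟩ := two c hcC b hb hcc hbb hcb ⟨z, hz, hcz, hbz⟩
    have hdd : ¬ R d d := hiso d hd hcd hbd
    obtain ⟨q, hq, hqq, hqd, hqsub⟩ := plus d hd hdd ⟨c, hcC, hs _ _ hcd⟩
    have hqc : R q c := hqsub c hcC (hs _ _ hcd)
    have hqb : R q b := by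
      by_contra h
      exact hiso q hq (hs _ _ hqc) (fun h' => h (hs _ _ h')) (hs _ _ hqd)
    by_cases hall : ∀ y ∈ C, R d y → R b y
    · exact ⟨d, hd, hdd, hbd, ⟨c, hcC, hs _ _ hcd⟩, hall⟩
    · push Not at hall
      obtain ⟨y0, hy0, hdy0, hby0⟩ := hall
      obtain ⟨f, hf, hff, hfd, hcl⟩ := comp hs (D := C.filter (fun x => ¬ R b x))
        (hP.filter_not hb hs) (freeM b hb hbne) (Finset.mem_filter.2 ⟨hd, hbd⟩)
        (Finset.mem_filter.2 ⟨hy0, hby0⟩) hdy0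
      have hf' := Finset.mem_filter.1 hf
      have hfb : ¬ R f b := fun h => hf'.2 (hs _ _ h)
      obtain ⟨g, hg, k1, k2, k3, k4⟩ := hP f hf'.1 b hb ⟨fun _ => hbb, fun _ => hff⟩
        (fun h => hfb (h.2 hff))
      have hgg : ¬ R g g := fun h => k1 ⟨fun _ => hff, fun _ => h⟩
      have hgf : ¬ R g f := fun h => hgg (k2.1 h)
      have hgb : ¬ R g b := fun h => hgg (k3.1 h)
      have hbg : ¬ R b g := fun h => hgb (hs _ _ h)
      have hqf : R q f := hqsub f hf'.1 (hs _ _ hfd)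
      refine ⟨g, hg, hgg, hbg, ⟨q, hq, ?_⟩, ?_⟩
      · exact (k4 q hq ⟨fun _ => hs _ _ hqb, fun _ => hs _ _ hqf⟩).2 (hs _ _ hqf)
      · intro y hy hgy
        by_contra hby'
        by_cases hfy : R f y
        · exact hgf (hs _ _ (hcl y (Finset.mem_filter.2 ⟨hy, hby'⟩) hfy g
            (Finset.mem_filter.2 ⟨hg, hbg⟩) (hs _ _ hgy)))
        · exact hfy ((k4 y hy ⟨fun h => (hfy h).elim, fun h => (hby' h).elim⟩).1 hgy)
  obtain ⟨d, hd, hdd, hbd, hdne, hdsub⟩ := three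
  -- (4)
  obtain ⟨c, hc, hcc, hcd, hcsub⟩ := plus d hd hdd hdne
  have hbc : R b c := hdsub c hc (hs _ _ hcd)
  have hex : ∃ x ∈ C, R b x ∧ ¬ R c x := by
    by_contra h
    push Not at h
    exact hbd (hmax' c hc h d hd hcd)
  obtain ⟨a, ha, hba, hca, hiso⟩ := two b hb c hc hbb hcc hbc hex
  have haa : ¬ R a a := hiso a ha hba hca
  have had : ¬ R a d := fun h => hca (hcsub a ha (hs _ _ h))
  refine ⟨a, ha, b, hb, c, hc, d, hd, ⟨hs _ _ hba, hbc, hcd, fun h => hca (hs _ _ h), hbd, had⟩,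
    haa, hbb, hcc, hdd, fun g hg => ⟨?_, ?_, ?_, ?_⟩⟩
  · rintro ⟨h1, h2, h3, -⟩
    exact hiso g hg (hs _ _ h2) (fun h => h3 (hs _ _ h)) (hs _ _ h1)
  · rintro ⟨-, h2, -, h4⟩
    exact h2 (hs _ _ (hdsub g hg (hs _ _ h4)))
  · rintro ⟨h1, h2, h3, h4⟩
    have hda : ¬ R d a := fun h => had (hs _ _ h)
    have hdb : ¬ R d b := fun h => hbd (hs _ _ h)
    have hdg : ¬ R d g := fun h => h4 (hs _ _ h)
    obtain ⟨f, hf, hff, hfa, hcl⟩ := comp hs (D := C.filter (fun x => ¬ R d x))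
      (hP.filter_not hd hs) (freeM d hd hdne) (Finset.mem_filter.2 ⟨ha, hda⟩)
      (Finset.mem_filter.2 ⟨hb, hdb⟩) (hs _ _ hba)
    have hf' := Finset.mem_filter.1 hf
    have haE : a ∈ C.filter (fun x => ¬ R d x) := Finset.mem_filter.2 ⟨ha, hda⟩
    have hbE : b ∈ C.filter (fun x => ¬ R d x) := Finset.mem_filter.2 ⟨hb, hdb⟩
    have hgE : g ∈ C.filter (fun x => ¬ R d x) := Finset.mem_filter.2 ⟨hg, hdg⟩
    have hfb : R f b := hcl a haE hfa b hbE (hs _ _ hba)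
    have hfg : R f g := hcl a haE hfa g hgE (hs _ _ h1)
    have hfd : ¬ R f d := fun h => hf'.2 (hs _ _ h)
    have hfc : R f c := by
      by_contra h
      exact hiso f hf'.1 (hs _ _ hfb) (fun h' => h (hs _ _ h')) (hs _ _ hfa)
    have hv : ∃ v ∈ C, R d v ∧ ¬ R f v := by
      by_contra h
      push Not at h
      have hsub : ∀ y ∈ C, R b y → R f y := by
        intro y hy hby
        by_cases hdy : R d y
        · exact h y hy hdy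
        · exact hcl b hbE hfb y (Finset.mem_filter.2 ⟨hy, hdy⟩) hby
      exact h2 (hs _ _ (hmax' f hf'.1 hsub g hg hfg))
    obtain ⟨v, hv, hdv, hfv⟩ := hv
    have hbv : R b v := hdsub v hv hdv
    have hcv : R c v := hcsub v hv hdv
    have := minF c hc f hf'.1 b hb v hv d hd
      ⟨hfb, hbv, hs _ _ hdv, hfv, hbd, hfd⟩ (hs _ _ hfc) (hs _ _ hbc) hcv hcd a ha
    exact hca this
  · rintro ⟨-, -, h3, h4⟩
    exact h3 (hs _ _ (hcsub g hg (hs _ _ h4)))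

theorem Pin.compl {R : V → V → Prop} {D : Finset V} (h : Pin R D) :
    Pin (fun x y => ¬ R x y) D := by
  intro u hu v hv h1 h2
  obtain ⟨g, hg, k1, k2, k3, k4⟩ := h u hu v hv (by tauto) (by tauto)
  exact ⟨g, hg, by tauto, by tauto, by tauto, fun y hy h => by
    have := k4 y hy (by tauto)
    tauto⟩

open Classical in
theorem core {R : V → V → Prop} (hs : ∀ x y, R x y → R y x) {C : Finset V} (hP : Pin R C)
    (h4 : ∃ a ∈ C, ∃ b ∈ C, ∃ c ∈ C, ∃ d ∈ C, P4 R a b c d)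
    (minF : ∀ w ∈ C, ∀ a ∈ C, ∀ b ∈ C, ∀ c ∈ C, ∀ d ∈ C, P4 R a b c d →
      R w a → R w b → R w c → R w d → ∀ y ∈ C, R w y)
    (minN : ∀ w ∈ C, ∀ a ∈ C, ∀ b ∈ C, ∀ c ∈ C, ∀ d ∈ C, P4 R a b c d →
      ¬ R w a → ¬ R w b → ¬ R w c → ¬ R w d → ∀ y ∈ C, ¬ R w y) :
    ∃ a ∈ C, ∃ b ∈ C, ∃ c ∈ C, ∃ d ∈ C, P4 R a b c d ∧ ¬ R a a ∧ R b b ∧ R c c ∧ ¬ R d d ∧
      ∀ g ∈ C, ¬ (R g a ∧ R g b ∧ ¬ R g c ∧ ¬ R g d) ∧ ¬ (¬ R g a ∧ ¬ R g b ∧ R g c ∧ R g d) ∧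
        ¬ (R g a ∧ ¬ R g b ∧ R g c ∧ ¬ R g d) ∧ ¬ (¬ R g a ∧ R g b ∧ ¬ R g c ∧ R g d) := by
  by_cases hfull : ∀ f ∈ C, ∃ y ∈ C, ¬ R f y
  · exact core1 hs hP h4 minF minN hfull
  · push Not at hfull
    obtain ⟨f0, hf0, hf0'⟩ := hfull
    have hs' : ∀ x y, ¬ R x y → ¬ R y x := fun x y h h' => h (hs _ _ h')
    have hp' : ∀ a b c d, P4 (fun x y => ¬ R x y) a b c d → P4 R c a d b := by
      rintro a b c d ⟨h1, h2, h3, h4, h5, h6⟩
      simp only [not_not] at h4 h5 h6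
      exact ⟨hs _ _ h4, h6, hs _ _ h5, h3, h1, fun h => h2 (hs _ _ h)⟩
    obtain ⟨p0, hp0, p1, hp1, p2, hp2, p3, hp3, q1, q2, q3, q4, q5, q6⟩ := h4
    obtain ⟨a, ha, b, hb, c, hc, d, hd, hp, e1, e2, e3, e4, hbad⟩ :=
      core1 (R := fun x y => ¬ R x y) hs' hP.compl
      ⟨p1, hp1, p3, hp3, p0, hp0, p2, hp2, q5, fun h => q6 (hs _ _ h), q4,
        fun h => h (hs _ _ q1), fun h => h (hs _ _ q3), fun h => h q2⟩
      (fun w hw a ha b hb c hc d hd h => by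
        intro h1 h2 h3 h4
        exact minN w hw c hc a ha d hd b hb (hp' _ _ _ _ h) h3 h1 h4 h2)
      (fun w hw a ha b hb c hc d hd h => by
        intro h1 h2 h3 h4 y hy
        simp only [not_not] at h1 h2 h3 h4 ⊢
        exact minF w hw c hc a ha d hd b hb (hp' _ _ _ _ h) h3 h1 h4 h2 y hy)
      (fun f hf => ⟨f0, hf0, fun h => h (hs _ _ (hf0' f hf))⟩)
    simp only [not_not] at e1 e4
    refine ⟨c, hc, a, ha, d, hd, b, hb, hp' _ _ _ _ hp, e3, e1, e4, e2, fun g hg => ?_⟩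
    obtain ⟨b1, b2, b3, b4⟩ := hbad g hg
    simp only [not_not] at b1 b2 b3 b4
    refine ⟨?_, ?_, ?_, ?_⟩
    · rintro ⟨h1, h2, h3, h4⟩
      exact b4 ⟨h2, h4, h1, h3⟩
    · rintro ⟨h1, h2, h3, h4⟩
      exact b3 ⟨h2, h4, h1, h3⟩
    · rintro ⟨h1, h2, h3, h4⟩
      exact b1 ⟨h2, h4, h1, h3⟩
    · rintro ⟨h1, h2, h3, h4⟩
      exact b2 ⟨h2, h4, h1, h3⟩

end Pool.H66.CylP4
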