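import Pool.Agent.H66.CylP4b

namespace Pool.H66.CylP4

variable {V : Type*}

/-- `C` contains every vertex that agrees with `C` at all coordinates where `C` is constant -/
def Cyl (R : V → V → Prop) (C : Finset V) : Prop :=
  ∀ g, (∀ y, (∀ u ∈ C, ∀ v ∈ C, (R u y ↔ R v y)) → ∀ u ∈ C, (R g y ↔ R u y)) → g ∈ C

open Classical in
theorem p3_prop [Fintype V] {R : V → V → Prop} (hs : ∀ x y, R x y → R y x)
    (hpairs : ∀ u v, (R u u ↔ R v v) → ¬ (R u v ↔ R u u) →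
      ∃ g, ¬ (R g g ↔ R u u) ∧ (R g u ↔ R g g) ∧ (R g v ↔ R g g) ∧
        ∀ y, (R u y ↔ R v y) → (R g y ↔ R u y))
    (h4 : ∃ a b c d, P4 R a b c d) :
    ∃ a b c d, P4 R a b c d ∧ ¬ R a a ∧ R b b ∧ R c c ∧ ¬ R d d ∧
      ∀ g, (∀ y, (R a y ↔ R b y) → (R b y ↔ R c y) → (R c y ↔ R d y) → (R g y ↔ R a y)) →
        ¬ (R g a ∧ R g b ∧ ¬ R g c ∧ ¬ R g d) ∧ ¬ (¬ R g a ∧ ¬ R g b ∧ R g c ∧ R g d) ∧
        ¬ (R g a ∧ ¬ R g b ∧ R g c ∧ ¬ R g d) ∧ ¬ (¬ R g a ∧ R g b ∧ ¬ R g c ∧ R g d) := by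
  set S : Finset (Finset V) := Finset.univ.filter (fun C => Cyl R C ∧
    ∃ a ∈ C, ∃ b ∈ C, ∃ c ∈ C, ∃ d ∈ C, P4 R a b c d) with hS
  have hne : S.Nonempty := by
    obtain ⟨a, b, c, d, h⟩ := h4
    exact ⟨Finset.univ, Finset.mem_filter.2 ⟨Finset.mem_univ _, fun g _ => Finset.mem_univ _,
      a, Finset.mem_univ _, b, Finset.mem_univ _, c, Finset.mem_univ _, d, Finset.mem_univ _, h⟩⟩
  obtain ⟨C, hC, hmin⟩ := Finset.exists_min_image S Finset.card hne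
  obtain ⟨-, hCyl, hC4⟩ := Finset.mem_filter.1 hC
  have hP : Pin R C := by
    intro u hu v hv h1 h2
    obtain ⟨g, k1, k2, k3, k4⟩ := hpairs u v h1 h2
    refine ⟨g, hCyl g ?_, k1, k2, k3, fun y _ => k4 y⟩
    intro y hy w hw
    exact (k4 y (hy u hu v hv)).trans (hy u hu w hw)
  have minF : ∀ w ∈ C, ∀ a ∈ C, ∀ b ∈ C, ∀ c ∈ C, ∀ d ∈ C, P4 R a b c d →
      R w a → R w b → R w c → R w d → ∀ y ∈ C, R w y := by
    intro w _ a ha b hb c hc d hd hp h1 h2 h3 h4 y hy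
    by_contra hwy
    have hlt : (C.filter (fun x => R w x)).card < C.card :=
      Finset.card_lt_card (Finset.filter_ssubset.2 ⟨y, hy, hwy⟩)
    have hmem : C.filter (fun x => R w x) ∈ S := by
      refine Finset.mem_filter.2 ⟨Finset.mem_univ _, ?_, a, Finset.mem_filter.2 ⟨ha, h1⟩,
        b, Finset.mem_filter.2 ⟨hb, h2⟩, c, Finset.mem_filter.2 ⟨hc, h3⟩,
        d, Finset.mem_filter.2 ⟨hd, h4⟩, hp⟩
      intro g hg
      have hw : R g w ↔ R a w := by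
        refine hg w ?_ a (Finset.mem_filter.2 ⟨ha, h1⟩)
        intro u hu v hv
        exact ⟨fun _ => hs _ _ (Finset.mem_filter.1 hv).2, fun _ => hs _ _ (Finset.mem_filter.1 hu).2⟩
      refine Finset.mem_filter.2 ⟨hCyl g ?_, hs _ _ (hw.2 (hs _ _ h1))⟩
      intro z hz u hu
      have h5 := hg z (fun u hu v hv => hz u (Finset.mem_filter.1 hu).1 v (Finset.mem_filter.1 hv).1)
        a (Finset.mem_filter.2 ⟨ha, h1⟩)
      exact h5.trans (hz a ha u hu)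
    have := hmin _ hmem
    omega
  have minN : ∀ w ∈ C, ∀ a ∈ C, ∀ b ∈ C, ∀ c ∈ C, ∀ d ∈ C, P4 R a b c d →
      ¬ R w a → ¬ R w b → ¬ R w c → ¬ R w d → ∀ y ∈ C, ¬ R w y := by
    intro w _ a ha b hb c hc d hd hp h1 h2 h3 h4 y hy hwy
    have hlt : (C.filter (fun x => ¬ R w x)).card < C.card :=
      Finset.card_lt_card (Finset.filter_ssubset.2 ⟨y, hy, not_not.2 hwy⟩)
    have hmem : C.filter (fun x => ¬ R w x) ∈ S := by
      refine Finset.mem_filter.2 ⟨Finset.mem_univ _, ?_, a, Finset.mem_filter.2 ⟨ha, h1⟩,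
        b, Finset.mem_filter.2 ⟨hb, h2⟩, c, Finset.mem_filter.2 ⟨hc, h3⟩,
        d, Finset.mem_filter.2 ⟨hd, h4⟩, hp⟩
      intro g hg
      have hw : R g w ↔ R a w := by
        refine hg w ?_ a (Finset.mem_filter.2 ⟨ha, h1⟩)
        intro u hu v hv
        exact ⟨fun h => ((Finset.mem_filter.1 hu).2 (hs _ _ h)).elim,
          fun h => ((Finset.mem_filter.1 hv).2 (hs _ _ h)).elim⟩
      refine Finset.mem_filter.2 ⟨hCyl g ?_, fun h => h1 (hs _ _ (hw.1 (hs _ _ h)))⟩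
      intro z hz u hu
      have h5 := hg z (fun u hu v hv => hz u (Finset.mem_filter.1 hu).1 v (Finset.mem_filter.1 hv).1)
        a (Finset.mem_filter.2 ⟨ha, h1⟩)
      exact h5.trans (hz a ha u hu)
    have := hmin _ hmem
    omega
  obtain ⟨a, ha, b, hb, c, hc, d, hd, hp, e1, e2, e3, e4, hbad⟩ := core hs hP hC4 minF minN
  refine ⟨a, b, c, d, hp, e1, e2, e3, e4, fun g hg => hbad g (hCyl g ?_)⟩
  intro y hy u hu
  exact (hg y (hy a ha b hb) (hy b hb c hc) (hy c hc d hd)).trans (hy a ha u hu)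

theorem zmod2_iff {x y : ZMod 2} : (x = 1 ↔ y = 1) ↔ x = y := by
  revert x y; decide

theorem zmod2_ne_one {x : ZMod 2} : ¬ x = 1 ↔ x = 0 := by
  revert x; decide

/-- `P3'` in the common form: `M` symmetric over `ZMod 2`, every closed pair has a midpoint, some
induced `P4`; then there is a closed (colours `0,1,1,0`) induced `P4` such that no vertex that
agrees with it wherever its four vertices agree sees exactly `{a,b}`, `{c,d}`, `{a,c}` or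
`{b,d}`. -/
theorem p3' [Fintype V] (M : V → V → ZMod 2) (hs : ∀ x y, M x y = M y x)
    (hpairs : ∀ u v, M u u = M v v → M u v ≠ M u u →
      ∃ g, M g g ≠ M u u ∧ M g u = M g g ∧ M g v = M g g ∧ ∀ x, M u x = M v x → M g x = M u x)
    (h4 : ∃ a b c d, M a b = 1 ∧ M b c = 1 ∧ M c d = 1 ∧ M a c = 0 ∧ M b d = 0 ∧ M a d = 0) :
    ∃ a b c d, (M a b = 1 ∧ M b c = 1 ∧ M c d = 1 ∧ M a c = 0 ∧ M b d = 0 ∧ M a d = 0) ∧
      M a a = 0 ∧ M b b = 1 ∧ M c c = 1 ∧ M d d = 0 ∧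
      ∀ w, (∀ y, M a y = M b y → M b y = M c y → M c y = M d y → M w y = M a y) →
        ¬ (M w a = 1 ∧ M w b = 1 ∧ M w c = 0 ∧ M w d = 0) ∧
        ¬ (M w a = 0 ∧ M w b = 0 ∧ M w c = 1 ∧ M w d = 1) ∧
        ¬ (M w a = 1 ∧ M w b = 0 ∧ M w c = 1 ∧ M w d = 0) ∧
        ¬ (M w a = 0 ∧ M w b = 1 ∧ M w c = 0 ∧ M w d = 1) := by
  have key := p3_prop (R := fun x y => M x y = 1) (fun x y h => (hs y x).trans h)
    (fun u v h1 h2 => by
      obtain ⟨g, k1, k2, k3, k4⟩ := hpairs u v (zmod2_iff.1 h1) (fun h => h2 (zmod2_iff.2 h))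
      exact ⟨g, fun h => k1 (zmod2_iff.1 h), zmod2_iff.2 k2, zmod2_iff.2 k3,
        fun y hy => zmod2_iff.2 (k4 y (zmod2_iff.1 hy))⟩)
    (by
      obtain ⟨a, b, c, d, h1, h2, h3, h4, h5, h6⟩ := h4
      exact ⟨a, b, c, d, h1, h2, h3, zmod2_ne_one.2 h4, zmod2_ne_one.2 h5, zmod2_ne_one.2 h6⟩)
  obtain ⟨a, b, c, d, ⟨h1, h2, h3, h4, h5, h6⟩, e1, e2, e3, e4, hbad⟩ := key
  refine ⟨a, b, c, d, ⟨h1, h2, h3, zmod2_ne_one.1 h4, zmod2_ne_one.1 h5, zmod2_ne_one.1 h6⟩,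
    zmod2_ne_one.1 e1, e2, e3, zmod2_ne_one.1 e4, fun w hw => ?_⟩
  have := hbad w (fun y k1 k2 k3 => zmod2_iff.2
    (hw y (zmod2_iff.1 k1) (zmod2_iff.1 k2) (zmod2_iff.1 k3)))
  simpa only [zmod2_ne_one] using this

end Pool.H66.CylP4
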